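import Mathlib
import Pool.Agent.BW.Defs

/-!
# Reduction of `GL_n` to `GL₂` for rings of stable range two
-/

set_option autoImplicit false
set_option linter.unusedSectionVars false

namespace Pool.Agent.Helper24.BWR

open BW Matrix

/-! ### Block embeddings -/

section emb

variable {m n k S : Type*} [DecidableEq m] [Fintype m] [DecidableEq n] [Fintype n]
  [DecidableEq k] [Fintype k] [Ring S]

/-- The matrix of an injection. -/
def pm (S : Type*) [Ring S] (φ : m ↪ n) : Matrix n m S := fun i a => if i = φ a then 1 else 0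

/-- The transposed matrix of an injection. -/
def qm (S : Type*) [Ring S] (φ : m ↪ n) : Matrix m n S := fun a i => if i = φ a then 1 else 0

theorem qm_mul_pm (φ : m ↪ n) : qm S φ * pm S φ = 1 := by
  ext a b
  rw [Matrix.mul_apply, Finset.sum_eq_single (φ a)]
  · by_cases h : a = b
    · subst h
      simp [qm, pm]
    · have : ¬ φ a = φ b := fun h' => h (φ.injective h')
      simp [qm, pm, this, h]
  · intro i _ hi
    simp [qm, hi]
  · intro h
    exact absurd (Finset.mem_univ _) h

/-- The block embedding of matrices. -/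
def emb (φ : m ↪ n) : Matrix m m S →* Matrix n n S where
  toFun M := 1 + pm S φ * (M - 1) * qm S φ
  map_one' := by rw [sub_self, Matrix.mul_zero, Matrix.zero_mul, add_zero]
  map_mul' M M' := by
    have h : pm S φ * (M - 1) * qm S φ * (pm S φ * (M' - 1) * qm S φ) =
        pm S φ * ((M - 1) * (M' - 1)) * qm S φ := by
      calc _ = pm S φ * (M - 1) * (qm S φ * pm S φ) * (M' - 1) * qm S φ := by
            simp only [Matrix.mul_assoc]
        _ = _ := by
            rw [qm_mul_pm, Matrix.mul_one]
            simp only [Matrix.mul_assoc]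
    rw [add_mul, one_mul, mul_add, mul_one, h]
    have e : M * M' - 1 = (M - 1) + (M' - 1) + (M - 1) * (M' - 1) := by noncomm_ring
    rw [e, Matrix.mul_add, Matrix.mul_add, Matrix.add_mul, Matrix.add_mul]
    abel

theorem emb_apply (φ : m ↪ n) (M : Matrix m m S) : emb φ M = 1 + pm S φ * (M - 1) * qm S φ := rfl

theorem pm_mul_pm (φ : m ↪ n) (ψ : n ↪ k) : pm S ψ * pm S φ = pm S (φ.trans ψ) := by
  ext i a
  rw [Matrix.mul_apply, Finset.sum_eq_single (φ a)]
  · simp [pm]
  · intro j _ hj
    simp [pm, hj]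
  · intro h
    exact absurd (Finset.mem_univ _) h

theorem qm_mul_qm (φ : m ↪ n) (ψ : n ↪ k) : qm S φ * qm S ψ = qm S (φ.trans ψ) := by
  ext a i
  rw [Matrix.mul_apply, Finset.sum_eq_single (φ a)]
  · simp [qm]
  · intro j _ hj
    simp [qm, hj]
  · intro h
    exact absurd (Finset.mem_univ _) h

theorem emb_emb (φ : m ↪ n) (ψ : n ↪ k) (M : Matrix m m S) :
    emb ψ (emb φ M) = emb (φ.trans ψ) M := by
  rw [emb_apply, emb_apply, emb_apply, add_sub_cancel_left, ← pm_mul_pm, ← qm_mul_qm]
  simp only [Matrix.mul_assoc]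

theorem pm_mul_single_mul_qm (φ : m ↪ n) (a b : m) (x : S) :
    pm S φ * Matrix.single a b x * qm S φ = Matrix.single (φ a) (φ b) x := by
  ext i j
  rw [Matrix.mul_apply, Finset.sum_eq_single b]
  · rw [Matrix.mul_apply, Finset.sum_eq_single a]
    · rw [Matrix.single_apply_same, Matrix.single_apply]
      by_cases h1 : i = φ a
      · by_cases h2 : j = φ b
        · simp [pm, qm, h1, h2]
        · have h2' : ¬ φ b = j := fun h => h2 h.symm
          simp [pm, qm, h2, h2']
      · have h1' : ¬ φ a = i := fun h => h1 h.symm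
        simp [pm, h1, h1']
    · intro c _ hc
      rw [Matrix.single_apply_of_row_ne (Ne.symm hc), mul_zero]
    · intro h
      exact absurd (Finset.mem_univ _) h
  · intro c _ hc
    rw [Matrix.mul_apply, Finset.sum_eq_zero, zero_mul]
    intro d _
    rw [Matrix.single_apply_of_col_ne _ _ (Ne.symm hc), mul_zero]
  · intro h
    exact absurd (Finset.mem_univ _) h

theorem emb_el (φ : m ↪ n) {a b : m} (h : a ≠ b) (x : S) :
    Units.map (emb φ) (el a b h x) = el (φ a) (φ b) (fun h' => h (φ.injective h')) x := by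
  apply Units.ext
  change emb φ (1 + Matrix.single a b x) = 1 + Matrix.single (φ a) (φ b) x
  rw [emb_apply, add_sub_cancel_left, pm_mul_single_mul_qm]

theorem emb_mem (φ : m ↪ n) {X : (Matrix m m S)ˣ} (hX : X ∈ E m S) :
    Units.map (emb φ) X ∈ E n S := by
  induction hX using Subgroup.closure_induction with
  | mem X hX =>
    obtain ⟨a, b, h, x, rfl⟩ := hX
    rw [emb_el]
    exact el_mem _ _ _ _
  | one => rw [map_one]; exact one_mem _
  | mul X Y _ _ hX hY => rw [map_mul]; exact mul_mem hX hY
  | inv X _ hX => rw [map_inv]; exact inv_mem hX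

/-- The first two indices. -/
def c2 : Fin 2 ↪ Fin 3 := Fin.castSuccEmb

theorem emb_c2 (A : Matrix (Fin 2) (Fin 2) S) : emb c2 A = k12 A := by
  rw [emb_apply]
  ext i j
  fin_cases i <;> fin_cases j <;>
    simp [pm, qm, c2, k12, Matrix.mul_apply, Fin.sum_univ_two]

end emb

/-! ### The stable range condition -/

/-- Unimodular triples can be shortened, with all row operations. -/
def SR2' (S : Type*) [Ring S] : Prop :=
  ∀ a b c u v : S, u * a + v * b + c = 1 → ∃ s t x y : S,
    x * (a + s * (v * b + c)) +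
      y * (b + t * (u * (a + s * (v * b + c)) + (1 - u * s) * c)) = 1

theorem SR2'.pi {ι : Type*} {S : ι → Type*} [∀ i, Ring (S i)] (h : ∀ i, SR2' (S i)) :
    SR2' (∀ i, S i) := by
  intro a b c u v hyp
  choose s t x y hxy using fun i => h i (a i) (b i) (c i) (u i) (v i) (congrFun hyp i)
  exact ⟨s, t, x, y, funext hxy⟩

section red

variable {n S : Type*} [DecidableEq n] [Fintype n] [Ring S]

/-- The subgroup generated by the elementary matrices with indices in `J`. -/
def EJ (S : Type*) [Ring S] (J : Finset n) : Subgroup (Matrix n n S)ˣ :=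
  Subgroup.closure {g | ∃ (i j : n) (h : i ≠ j) (x : S), i ∈ J ∧ j ∈ J ∧ g = el i j h x}

theorem el_mem_EJ {J : Finset n} {i j : n} (h : i ≠ j) (hi : i ∈ J) (hj : j ∈ J) (x : S) :
    el i j h x ∈ EJ S J :=
  Subgroup.subset_closure ⟨i, j, h, x, hi, hj, rfl⟩

theorem EJ_le (J : Finset n) : EJ S J ≤ E n S := by
  rw [EJ, Subgroup.closure_le]
  rintro _ ⟨i, j, h, x, -, -, rfl⟩
  exact el_mem _ _ _ _

/-- The matrices which differ from the identity only at the indices in `J`. -/
def Std (J : Finset n) (X : Matrix n n S) : Prop :=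
  ∀ i j, (i ∉ J ∨ j ∉ J) → X i j = (1 : Matrix n n S) i j

theorem Std.mul {J : Finset n} {X Y : Matrix n n S} (hX : Std J X) (hY : Std J Y) :
    Std J (X * Y) := by
  intro i j h
  rcases h with h | h
  · have h1 : (X * Y) i j = ((1 : Matrix n n S) * Y) i j := by
      rw [Matrix.mul_apply, Matrix.mul_apply]
      exact Finset.sum_congr rfl fun l _ => by rw [hX i l (Or.inl h)]
    rw [h1, Matrix.one_mul]
    exact hY i j (Or.inl h)
  · have h1 : (X * Y) i j = (X * (1 : Matrix n n S)) i j := by
      rw [Matrix.mul_apply, Matrix.mul_apply]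
      exact Finset.sum_congr rfl fun l _ => by rw [hY l j (Or.inr h)]
    rw [h1, Matrix.mul_one]
    exact hX i j (Or.inr h)

theorem Std.inv {J : Finset n} {X : (Matrix n n S)ˣ} (hX : Std J X.val) : Std J (X⁻¹).val := by
  intro i j h
  rcases h with h | h
  · have h1 : (X.val * (X⁻¹).val) i j = ((1 : Matrix n n S) * (X⁻¹).val) i j := by
      rw [Matrix.mul_apply, Matrix.mul_apply]
      exact Finset.sum_congr rfl fun l _ => by rw [hX i l (Or.inl h)]
    rw [Matrix.one_mul, Units.mul_inv] at h1
    exact h1.symm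
  · have h1 : ((X⁻¹).val * X.val) i j = ((X⁻¹).val * (1 : Matrix n n S)) i j := by
      rw [Matrix.mul_apply, Matrix.mul_apply]
      exact Finset.sum_congr rfl fun l _ => by rw [hX l j (Or.inr h)]
    rw [Matrix.mul_one, Units.inv_mul] at h1
    exact h1.symm

theorem Std.el {J : Finset n} {i j : n} (h : i ≠ j) (hi : i ∈ J) (hj : j ∈ J) (x : S) :
    Std J (el i j h x).val := by
  intro k l hkl
  change (1 + Matrix.single i j x) k l = _
  rw [Matrix.add_apply, Matrix.single_apply_of_ne, add_zero]
  rintro ⟨rfl, rfl⟩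
  rcases hkl with h | h
  · exact h hi
  · exact h hj

theorem Std.of_mem {J : Finset n} {X : (Matrix n n S)ˣ} (hX : X ∈ EJ S J) : Std J X.val := by
  induction hX using Subgroup.closure_induction with
  | mem X hX =>
    obtain ⟨i, j, h, x, hi, hj, rfl⟩ := hX
    exact Std.el h hi hj x
  | one => exact fun _ _ _ => rfl
  | mul X Y _ _ hX hY => exact hX.mul hY
  | inv X _ hX => exact hX.inv

/-- Columns equivalent under the elementary matrices with indices in `J`. -/
def Rel (J : Finset n) (c c' : n → S) : Prop := ∃ e ∈ EJ S J, c' = e.val *ᵥ c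

theorem Rel.refl (J : Finset n) (c : n → S) : Rel J c c :=
  ⟨1, one_mem _, by rw [Units.val_one, Matrix.one_mulVec]⟩

theorem Rel.trans {J : Finset n} {c c' c'' : n → S} (h : Rel J c c') (h' : Rel J c' c'') :
    Rel J c c'' := by
  obtain ⟨e, he, rfl⟩ := h
  obtain ⟨e', he', rfl⟩ := h'
  exact ⟨e' * e, mul_mem he' he, by rw [Units.val_mul, Matrix.mulVec_mulVec]⟩

theorem el_mulVec {i j : n} (h : i ≠ j) (x : S) (c : n → S) :
    (el i j h x).val *ᵥ c = Function.update c i (c i + x * c j) := by
  change (1 + Matrix.single i j x) *ᵥ c = _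
  rw [Matrix.add_mulVec, Matrix.one_mulVec]
  funext k
  rw [Pi.add_apply]
  have h1 : (Matrix.single i j x *ᵥ c) k = if k = i then x * c j else 0 := by
    change ∑ l, Matrix.single i j x k l * c l = _
    rw [Finset.sum_eq_single j]
    · by_cases hk : k = i
      · subst hk
        rw [Matrix.single_apply_same, if_pos rfl]
      · rw [Matrix.single_apply_of_row_ne (Ne.symm hk), zero_mul, if_neg hk]
    · intro l _ hl
      rw [Matrix.single_apply_of_col_ne _ _ (Ne.symm hl), zero_mul]
    · intro h
      exact absurd (Finset.mem_univ _) h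
  rw [h1]
  by_cases hk : k = i
  · subst hk
    rw [if_pos rfl, Function.update_self]
  · rw [if_neg hk, Function.update_of_ne hk, add_zero]

theorem Rel.el {J : Finset n} {i j : n} (h : i ≠ j) (hi : i ∈ J) (hj : j ∈ J) (x : S) (c : n → S) :
    Rel J c (Function.update c i (c i + x * c j)) :=
  ⟨_, el_mem_EJ h hi hj x, (el_mulVec h x c).symm⟩

theorem Rel.comb {J : Finset n} {i : n} (hi : i ∈ J) (s : Finset n) (hs : s ⊆ J) (his : i ∉ s)
    (r c : n → S) : Rel J c (Function.update c i (c i + ∑ j ∈ s, r j * c j)) := by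
  induction s using Finset.induction_on with
  | empty =>
    rw [Finset.sum_empty, add_zero, Function.update_eq_self]
    exact Rel.refl _ _
  | insert j s hj ih =>
    have hij : i ≠ j := fun h => his (h ▸ Finset.mem_insert_self _ _)
    have h1 := ih (fun k hk => hs (Finset.mem_insert_of_mem hk))
      (fun h => his (Finset.mem_insert_of_mem h))
    refine h1.trans ?_
    have h2 := Rel.el hij hi (hs (Finset.mem_insert_self _ _)) (r j)
      (Function.update c i (c i + ∑ j ∈ s, r j * c j))
    rw [Function.update_self, Function.update_of_ne hij.symm, Function.update_idem] at h2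
    rw [Finset.sum_insert hj]
    have e : c i + (r j * c j + ∑ k ∈ s, r k * c k) = c i + ∑ k ∈ s, r k * c k + r j * c j := by
      abel
    rw [e]
    exact h2

theorem Rel.clear {J : Finset n} {q : n} (hq : q ∈ J) (s : Finset n) (hs : s ⊆ J.erase q)
    {c : n → S} (hc : c q = 1) : Rel J c (fun k => if k ∈ s then 0 else c k) := by
  induction s using Finset.induction_on with
  | empty => simpa using Rel.refl J c
  | insert j s hj ih =>
    have h1 := ih (fun k hk => hs (Finset.mem_insert_of_mem hk))
    have hj' := Finset.mem_erase.mp (hs (Finset.mem_insert_self j s))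
    have hqs : q ∉ s := fun h => by
      have := Finset.mem_erase.mp (hs (Finset.mem_insert_of_mem h))
      exact this.1 rfl
    refine h1.trans ?_
    have h2 := Rel.el hj'.1 hj'.2 hq (-(c j)) (fun k => if k ∈ s then 0 else c k)
    have e : (fun k => if k ∈ insert j s then 0 else c k) = Function.update
        (fun k => if k ∈ s then 0 else c k) j
          ((if j ∈ s then 0 else c j) + -(c j) * (if q ∈ s then 0 else c q)) := by
      funext k
      by_cases hk : k = j
      · subst hk
        rw [Function.update_self, if_pos (Finset.mem_insert_self _ _), if_neg hj, if_neg hqs, hc,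
          mul_one, add_neg_cancel]
      · rw [Function.update_of_ne hk]
        by_cases hks : k ∈ s
        · rw [if_pos hks, if_pos (Finset.mem_insert_of_mem hks)]
        · rw [if_neg hks, if_neg (fun h => (Finset.mem_insert.mp h).elim hk hks)]
    rw [e]
    exact h2

/-- A unimodular column is equivalent to a unit vector. -/
theorem Rel.unimod (hS : SR2' S) {J : Finset n} {i₀ i₁ q : n} (h0 : i₀ ∈ J) (h1 : i₁ ∈ J)
    (hq : q ∈ J) (h01 : i₀ ≠ i₁) (h0q : i₀ ≠ q) (h1q : i₁ ≠ q) {c u : n → S}
    (hc : ∀ k, k ∉ J → c k = 0) (hu : ∑ k, u k * c k = 1) : Rel J c (Pi.single q 1) := by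
  set T : Finset n := (J.erase i₀).erase i₁ with hT
  have hi1 : i₁ ∈ J.erase i₀ := Finset.mem_erase.mpr ⟨h01.symm, h1⟩
  have hi0T : i₀ ∉ T := fun h => (Finset.mem_erase.mp (Finset.mem_erase.mp h).2).1 rfl
  have hi1T : i₁ ∉ T := fun h => (Finset.mem_erase.mp h).1 rfl
  have hTJ : T ⊆ J := (Finset.erase_subset _ _).trans (Finset.erase_subset _ _)
  have hqT : q ∈ T := Finset.mem_erase.mpr ⟨h1q.symm, Finset.mem_erase.mpr ⟨h0q.symm, hq⟩⟩
  have hsum : u i₀ * c i₀ + u i₁ * c i₁ + ∑ k ∈ T, u k * c k = 1 := by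
    rw [← hu, ← Finset.sum_subset (Finset.subset_univ J) (fun k _ hk => by rw [hc k hk, mul_zero]),
      ← Finset.add_sum_erase J _ h0, ← Finset.add_sum_erase (J.erase i₀) _ hi1, add_assoc]
  obtain ⟨s, t, x, y, hxy⟩ := hS (c i₀) (c i₁) (∑ k ∈ T, u k * c k) (u i₀) (u i₁) hsum
  set C := ∑ k ∈ T, u k * c k with hC
  set a' := c i₀ + s * (u i₁ * c i₁ + C) with ha'
  set b' := c i₁ + t * (u i₀ * a' + (1 - u i₀ * s) * C) with hb'
  -- the first step
  have s1 : Rel J c (Function.update c i₀ a') := by
    have := Rel.comb h0 (insert i₁ T) (Finset.insert_subset_iff.mpr ⟨h1, hTJ⟩)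
      (fun h => (Finset.mem_insert.mp h).elim h01 hi0T) (fun k => s * u k) c
    rw [Finset.sum_insert hi1T] at this
    have e : c i₀ + (s * u i₁ * c i₁ + ∑ k ∈ T, s * u k * c k) = a' := by
      rw [ha', hC, mul_add, Finset.mul_sum]
      simp only [mul_assoc]
    rwa [e] at this
  -- the second step
  set c1 := Function.update c i₀ a' with hc1
  have e10 : c1 i₀ = a' := Function.update_self _ _ _
  have e1k : ∀ k, k ≠ i₀ → c1 k = c k := fun k hk => Function.update_of_ne hk _ _
  have s2 : Rel J c1 (Function.update c1 i₁ b') := by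
    have := Rel.comb h1 (insert i₀ T) (Finset.insert_subset_iff.mpr ⟨h0, hTJ⟩)
      (fun h => (Finset.mem_insert.mp h).elim h01.symm hi1T)
      (fun k => if k = i₀ then t * u i₀ else t * (1 - u i₀ * s) * u k) c1
    rw [Finset.sum_insert hi0T, if_pos rfl, e10, e1k i₁ h01.symm] at this
    have e : c i₁ + (t * u i₀ * a' + ∑ k ∈ T,
        (if k = i₀ then t * u i₀ else t * (1 - u i₀ * s) * u k) * c1 k) = b' := by
      have e2 : ∑ k ∈ T, (if k = i₀ then t * u i₀ else t * (1 - u i₀ * s) * u k) * c1 k =
          t * (1 - u i₀ * s) * C := by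
        rw [hC, Finset.mul_sum]
        refine Finset.sum_congr rfl fun k hk => ?_
        have hk0 : k ≠ i₀ := fun h => hi0T (h ▸ hk)
        rw [if_neg hk0, e1k k hk0, mul_assoc]
      rw [e2, hb', mul_add t, mul_assoc t (u i₀) a', mul_assoc t (1 - u i₀ * s) C]
    rwa [e] at this
  -- the third step
  set c2 := Function.update c1 i₁ b' with hc2
  have e21 : c2 i₁ = b' := Function.update_self _ _ _
  have e20 : c2 i₀ = a' := by rw [hc2, Function.update_of_ne h01, e10]
  have e2q : c2 q = c q := by rw [hc2, Function.update_of_ne h1q.symm, e1k q h0q.symm]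
  have s3 : Rel J c2 (Function.update c2 q 1) := by
    have hne : i₀ ∉ ({i₁} : Finset n) := by rwa [Finset.mem_singleton]
    have := Rel.comb hq (insert i₀ {i₁}) (by
        intro k hk
        rcases Finset.mem_insert.mp hk with rfl | hk
        · exact h0
        · rw [Finset.mem_singleton.mp hk]
          exact h1) (by
        intro h
        rcases Finset.mem_insert.mp h with h | h
        · exact h0q h.symm
        · exact h1q (Finset.mem_singleton.mp h).symm)
      (fun k => if k = i₀ then (1 - c q) * x else (1 - c q) * y) c2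
    rw [Finset.sum_insert hne, Finset.sum_singleton, if_pos rfl, if_neg h01.symm, e20, e21,
      e2q] at this
    have e : c q + ((1 - c q) * x * a' + (1 - c q) * y * b') = 1 := by
      rw [mul_assoc, mul_assoc, ← mul_add, hxy, mul_one, add_sub_cancel]
    rwa [e] at this
  -- the last step
  set c3 := Function.update c2 q 1 with hc3
  have e3q : c3 q = 1 := Function.update_self _ _ _
  have s4 := Rel.clear (J := J) hq (J.erase q) subset_rfl (c := c3) e3q
  have e4 : (fun k => if k ∈ J.erase q then 0 else c3 k) = Pi.single q 1 := by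
    funext k
    by_cases hk : k = q
    · subst hk
      rw [Pi.single_eq_same, if_neg (fun h => (Finset.mem_erase.mp h).1 rfl), e3q]
    · rw [Pi.single_eq_of_ne hk]
      by_cases hkJ : k ∈ J
      · rw [if_pos (Finset.mem_erase.mpr ⟨hk, hkJ⟩)]
      · rw [if_neg (fun h => hkJ (Finset.mem_erase.mp h).2), hc3, Function.update_of_ne hk, hc2,
          Function.update_of_ne (fun h => hkJ (by rw [h]; exact h1)),
          e1k k (fun h => hkJ (by rw [h]; exact h0)), hc k hkJ]
  rw [e4] at s4
  exact ((s1.trans s2).trans s3).trans s4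

theorem mul_single_apply (Z : Matrix n n S) (q l k j : n) (x : S) :
    (Z * Matrix.single q l x) k j = if j = l then Z k q * x else 0 := by
  rw [Matrix.mul_apply, Finset.sum_eq_single q]
  · by_cases hjl : j = l
    · subst hjl
      rw [Matrix.single_apply_same, if_pos rfl]
    · rw [Matrix.single_apply_of_col_ne _ _ (Ne.symm hjl), mul_zero, if_neg hjl]
  · intro m _ hm
    rw [Matrix.single_apply_of_row_ne (Ne.symm hm), mul_zero]
  · intro h
    exact absurd (Finset.mem_univ _) h

/-- Clearing a row. -/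
theorem row_clear {J : Finset n} {q : n} (hq : q ∈ J) (s : Finset n) (hs : s ⊆ J.erase q)
    {Y : Matrix n n S} (hY : ∀ k, Y k q = (1 : Matrix n n S) k q) :
    ∃ f ∈ EJ S J, ∀ k j, (Y * f.val) k j = if k = q ∧ j ∈ s then 0 else Y k j := by
  induction s using Finset.induction_on with
  | empty =>
    refine ⟨1, one_mem _, fun k j => ?_⟩
    rw [Units.val_one, Matrix.mul_one, if_neg (fun h => absurd h.2 (Finset.notMem_empty _))]
  | insert l s hl ih =>
    obtain ⟨f, hf, h1⟩ := ih fun k hk => hs (Finset.mem_insert_of_mem hk)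
    have hl' := Finset.mem_erase.mp (hs (Finset.mem_insert_self l s))
    have hqs : q ∉ s := fun h => by
      have := Finset.mem_erase.mp (hs (Finset.mem_insert_of_mem h))
      exact this.1 rfl
    refine ⟨f * el q l hl'.1.symm (-(Y q l)), mul_mem hf (el_mem_EJ _ hq hl'.2 _), fun k j => ?_⟩
    rw [Units.val_mul, ← Matrix.mul_assoc]
    change ((Y * f.val) * (1 + Matrix.single q l (-(Y q l)))) k j = _
    rw [Matrix.mul_add, Matrix.mul_one, Matrix.add_apply, mul_single_apply, h1 k j, h1 k q,
      if_neg (fun h : k = q ∧ q ∈ s => hqs h.2), hY k]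
    by_cases hjl : j = l
    · subst hjl
      rw [if_pos rfl, if_neg (fun h : k = q ∧ j ∈ s => hl h.2)]
      by_cases hk : k = q
      · subst hk
        rw [Matrix.one_apply_eq, one_mul, add_neg_cancel, if_pos ⟨rfl, Finset.mem_insert_self _ _⟩]
      · rw [Matrix.one_apply_ne hk, zero_mul, add_zero, if_neg (fun h => hk h.1)]
    · rw [if_neg hjl, add_zero]
      by_cases hjs : k = q ∧ j ∈ s
      · rw [if_pos hjs, if_pos ⟨hjs.1, Finset.mem_insert_of_mem hjs.2⟩]
      · rw [if_neg hjs, if_neg (fun h => hjs ⟨h.1, (Finset.mem_insert.mp h.2).resolve_left hjl⟩)]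

/-- One step of the reduction. -/
theorem step (hS : SR2' S) {J : Finset n} {i₀ i₁ q : n} (h0 : i₀ ∈ J) (h1 : i₁ ∈ J)
    (hq : q ∈ J) (h01 : i₀ ≠ i₁) (h0q : i₀ ≠ q) (h1q : i₁ ≠ q) {X : (Matrix n n S)ˣ}
    (hX : Std J X.val) : ∃ e ∈ EJ S J, ∃ f ∈ EJ S J, Std (J.erase q) (e * X * f).val := by
  obtain ⟨e, he, h2⟩ := Rel.unimod hS h0 h1 hq h01 h0q h1q (c := fun k => X.val k q)
    (u := fun k => (X⁻¹).val q k) (fun k hk => by
      rw [hX k q (Or.inl hk), Matrix.one_apply_ne (fun h => hk (by rw [h]; exact hq))]) (by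
      have h3 : ((X⁻¹).val * X.val) q q = 1 := by rw [Units.inv_mul, Matrix.one_apply_eq]
      rw [Matrix.mul_apply] at h3
      exact h3)
  have hY : ∀ k, (e * X).val k q = (1 : Matrix n n S) k q := by
    intro k
    have h3 := congrFun h2 k
    rw [Units.val_mul, Matrix.mul_apply]
    change _ = ∑ l, e.val k l * X.val l q at h3
    rw [← h3, Matrix.one_apply]
    by_cases hk : k = q
    · subst hk
      rw [Pi.single_eq_same, if_pos rfl]
    · rw [Pi.single_eq_of_ne hk, if_neg hk]
  obtain ⟨f, hf, h3⟩ := row_clear hq (J.erase q) subset_rfl hY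
  refine ⟨e, he, f, hf, ?_⟩
  have hstd : Std J ((e * X).val * f.val) :=
    ((Std.of_mem he).mul hX).mul (Std.of_mem hf)
  intro k j hkj
  rw [Units.val_mul]
  by_cases hk : k ∈ J
  · by_cases hj : j ∈ J
    · have hkj' : k = q ∨ j = q := by
        rcases hkj with h | h
        · exact Or.inl (by by_contra hne; exact h (Finset.mem_erase.mpr ⟨hne, hk⟩))
        · exact Or.inr (by by_contra hne; exact h (Finset.mem_erase.mpr ⟨hne, hj⟩))
      rw [h3]
      by_cases hjq : j = q
      · subst hjq
        rw [if_neg (fun h => (Finset.mem_erase.mp h.2).1 rfl), hY]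
      · have hkq : k = q := hkj'.resolve_right hjq
        subst hkq
        rw [if_pos ⟨rfl, Finset.mem_erase.mpr ⟨hjq, hj⟩⟩, Matrix.one_apply_ne (Ne.symm hjq)]
    · exact hstd k j (Or.inr hj)
  · exact hstd k j (Or.inl hk)

/-- The reduction to the indices `i₀`, `i₁`. -/
theorem reduce (hS : SR2' S) {i₀ i₁ : n} (h01 : i₀ ≠ i₁) (J : Finset n) (h0 : i₀ ∈ J)
    (h1 : i₁ ∈ J) (X : (Matrix n n S)ˣ) (hX : Std J X.val) :
    ∃ e ∈ E n S, ∃ f ∈ E n S, Std {i₀, i₁} (e * X * f).val := by
  induction hc : J.card using Nat.strong_induction_on generalizing J X with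
  | _ N ih =>
    by_cases h : ∃ q ∈ J, q ≠ i₀ ∧ q ≠ i₁
    · obtain ⟨q, hq, h2, h3⟩ := h
      obtain ⟨e, he, f, hf, h4⟩ := step hS h0 h1 hq h01 h2.symm h3.symm hX
      obtain ⟨e', he', f', hf', h5⟩ := ih (J.erase q).card
        (by rw [← hc]; exact Finset.card_erase_lt_of_mem hq) (J.erase q)
        (Finset.mem_erase.mpr ⟨h2.symm, h0⟩) (Finset.mem_erase.mpr ⟨h3.symm, h1⟩) _ h4 rfl
      refine ⟨e' * e, mul_mem he' (EJ_le _ he), f * f', mul_mem (EJ_le _ hf) hf', ?_⟩
      have e1 : e' * e * X * (f * f') = e' * (e * X * f) * f' := by group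
      rw [e1]
      exact h5
    · push Not at h
      refine ⟨1, one_mem _, 1, one_mem _, ?_⟩
      rw [one_mul, mul_one]
      have hJ : J ⊆ {i₀, i₁} := by
        intro q hq
        rw [Finset.mem_insert, Finset.mem_singleton]
        by_cases h2 : q = i₀
        · exact Or.inl h2
        · exact Or.inr (h q hq h2)
      intro k j hkj
      exact hX k j (hkj.imp (fun h h' => h (hJ h')) fun h h' => h (hJ h'))

end red

end Pool.Agent.Helper24.BWR
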