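import Mathlib
import Pool.Agent.BW.Defs

/-!
# Normal subgroups of products of groups `GL₂(𝔽_p)`
-/

set_option autoImplicit false

namespace Pool.Agent.Helper24.BWR

open BW Matrix

section field

variable {F : Type*} [Field F]

theorem el01_val (x : F) : (el (0 : Fin 2) 1 (by decide) x).val = !![1, x; 0, 1] := by
  ext i j
  fin_cases i <;> fin_cases j <;> simp [el, Matrix.single]

theorem el10_val (x : F) : (el (1 : Fin 2) 0 (by decide) x).val = !![1, 0; x, 1] := by
  ext i j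
  fin_cases i <;> fin_cases j <;> simp [el, Matrix.single]

/-- The matrices of determinant one are products of four elementary matrices. -/
theorem exists_el {y : (Matrix (Fin 2) (Fin 2) F)ˣ} (hy : y.val.det = 1) :
    ∃ x₁ x₂ x₃ x₄ : F, y = el (0 : Fin 2) 1 (by decide) x₁ * el (1 : Fin 2) 0 (by decide) x₂ *
      el (0 : Fin 2) 1 (by decide) x₃ * el (1 : Fin 2) 0 (by decide) x₄ := by
  rw [Matrix.det_fin_two] at hy
  have key : ∀ c : F, y.val 1 0 + c * y.val 1 1 ≠ 0 → ∃ x₁ x₂ x₃ x₄ : F,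
      y = el (0 : Fin 2) 1 (by decide) x₁ * el (1 : Fin 2) 0 (by decide) x₂ *
      el (0 : Fin 2) 1 (by decide) x₃ * el (1 : Fin 2) 0 (by decide) x₄ := by
    intro c hc
    set m := y.val 1 0 + c * y.val 1 1 with hm
    refine ⟨(y.val 0 0 + c * y.val 0 1 - 1) / m, m, (y.val 1 1 - 1) / m, -c, ?_⟩
    apply Units.ext
    rw [Units.val_mul, Units.val_mul, Units.val_mul, el01_val, el10_val, el01_val, el10_val,
      Matrix.eta_fin_two y.val]
    simp only [Matrix.mul_fin_two]
    ext i j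
    fin_cases i <;> fin_cases j <;> simp <;> field_simp
    · rw [hm]
      linear_combination c * hy
    · rw [hm]
      linear_combination (-1 : F) * hy
    · rw [hm]
      ring
    · ring
  by_cases h : y.val 1 0 = 0
  · refine key 1 ?_
    rw [h, zero_add, one_mul]
    rintro h1
    rw [h, h1] at hy
    simp at hy
  · refine key 0 ?_
    rwa [zero_mul, add_zero]

/-- A matrix which is not scalar has a cyclic vector. -/
theorem exists_cyclic {z : (Matrix (Fin 2) (Fin 2) F)ˣ}
    (hz : ¬ (z.val 0 1 = 0 ∧ z.val 1 0 = 0 ∧ z.val 0 0 = z.val 1 1)) :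
    ∃ P : (Matrix (Fin 2) (Fin 2) F)ˣ,
      z.val * P.val = P.val * !![0, -z.val.det; 1, z.val.trace] := by
  have key : ∀ v w : F, v * (z.val 1 0 * v + z.val 1 1 * w) - w * (z.val 0 0 * v + z.val 0 1 * w) ≠ 0 →
      ∃ P : (Matrix (Fin 2) (Fin 2) F)ˣ,
      z.val * P.val = P.val * !![0, -z.val.det; 1, z.val.trace] := by
    intro v w h
    refine ⟨Matrix.nonsingInvUnit !![v, z.val 0 0 * v + z.val 0 1 * w;
      w, z.val 1 0 * v + z.val 1 1 * w] ?_, ?_⟩
    · rw [Matrix.det_fin_two_of, isUnit_iff_ne_zero]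
      intro h1
      apply h
      linear_combination h1
    · change z.val * !![v, z.val 0 0 * v + z.val 0 1 * w; w, z.val 1 0 * v + z.val 1 1 * w] =
        !![v, z.val 0 0 * v + z.val 0 1 * w; w, z.val 1 0 * v + z.val 1 1 * w] *
          !![0, -z.val.det; 1, z.val.trace]
      rw [Matrix.det_fin_two, Matrix.trace_fin_two]
      ext i j
      fin_cases i <;> fin_cases j <;> simp [Matrix.mul_apply, Fin.sum_univ_two] <;> ring
  by_cases h1 : z.val 1 0 = 0
  · by_cases h2 : z.val 0 1 = 0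
    · refine key 1 1 ?_
      intro h3
      apply hz
      refine ⟨h2, h1, ?_⟩
      rw [h1, h2] at h3
      linear_combination -h3
    · refine key 0 1 ?_
      intro h3
      apply h2
      linear_combination -h3
  · refine key 1 0 ?_
    intro h3
    apply h1
    linear_combination h3

/-- The diagonal matrix with entries `2`, `1`. -/
def dg (h2 : (2 : F) ≠ 0) : (Matrix (Fin 2) (Fin 2) F)ˣ where
  val := !![2, 0; 0, 1]
  inv := !![2⁻¹, 0; 0, 1]
  val_inv := by
    ext i j
    fin_cases i <;> fin_cases j <;> simp [h2]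
  inv_val := by
    ext i j
    fin_cases i <;> fin_cases j <;> simp [h2]

/-- The commutator with a conjugate. -/
theorem exists_comm (h2 : (2 : F) ≠ 0) {z : (Matrix (Fin 2) (Fin 2) F)ˣ}
    (hz : ¬ (z.val 0 1 = 0 ∧ z.val 1 0 = 0 ∧ z.val 0 0 = z.val 1 1)) :
    ∃ P : (Matrix (Fin 2) (Fin 2) F)ˣ, ∀ v : F, el (0 : Fin 2) 1 (by decide) (3 * v) =
      ((dg h2 * (P⁻¹ * z * P) * (dg h2)⁻¹)⁻¹ * (P⁻¹ * z * P)) * el (0 : Fin 2) 1 (by decide) v *
      ((dg h2 * (P⁻¹ * z * P) * (dg h2)⁻¹)⁻¹ * (P⁻¹ * z * P))⁻¹ *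
      (el (0 : Fin 2) 1 (by decide) v)⁻¹ := by
  obtain ⟨P, hP⟩ := exists_cyclic hz
  refine ⟨P, fun v => ?_⟩
  set c := P⁻¹ * z * P with hc
  have hcv : c.val = !![0, -z.val.det; 1, z.val.trace] := by
    rw [hc, Units.val_mul, Units.val_mul, mul_assoc, hP, ← mul_assoc, Units.inv_mul, one_mul]
  set τ := z.val.trace with hτ
  have h22 : (2 : F) * 2⁻¹ = 1 := mul_inv_cancel₀ h2
  let g : (Matrix (Fin 2) (Fin 2) F)ˣ :=
    { val := !![2, τ; 0, 2⁻¹]
      inv := !![2⁻¹, -τ; 0, 2]
      val_inv := by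
        ext i j
        fin_cases i <;> fin_cases j <;> simp [h2]
        ring
      inv_val := by
        ext i j
        fin_cases i <;> fin_cases j <;> simp [h2]
        ring }
  have hg : (dg h2 * c * (dg h2)⁻¹)⁻¹ * c = g := by
    rw [inv_mul_eq_iff_eq_mul]
    apply Units.ext
    have e1 : (dg h2).val = !![2, 0; 0, 1] := rfl
    have e2 : ((dg h2)⁻¹).val = !![2⁻¹, 0; 0, 1] := rfl
    have e3 : g.val = !![2, τ; 0, 2⁻¹] := rfl
    change c.val = (dg h2).val * c.val * ((dg h2)⁻¹).val * g.val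
    rw [hcv, e1, e2, e3]
    ext i j
    fin_cases i <;> fin_cases j <;> simp [Matrix.mul_apply, Fin.sum_univ_two, h2]
    all_goals field_simp
    all_goals ring
  rw [hg, eq_mul_inv_iff_mul_eq, eq_mul_inv_iff_mul_eq]
  apply Units.ext
  have e3 : g.val = !![2, τ; 0, 2⁻¹] := rfl
  rw [Units.val_mul, Units.val_mul, Units.val_mul, el01_val, el01_val, e3]
  ext i j
  fin_cases i <;> fin_cases j <;> simp [Matrix.mul_apply, Fin.sum_univ_two]
  all_goals field_simp
  all_goals ring

end field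

section prod

variable {I : Type*} {F : I → Type*} [∀ i, Field (F i)]

/-- The families of elementary matrices. -/
def fel (x : ∀ i, F i) : ∀ i, (Matrix (Fin 2) (Fin 2) (F i))ˣ :=
  fun i => el (0 : Fin 2) 1 (by decide) (x i)

/-- The families of elementary matrices. -/
def fel' (x : ∀ i, F i) : ∀ i, (Matrix (Fin 2) (Fin 2) (F i))ˣ :=
  fun i => el (1 : Fin 2) 0 (by decide) (x i)

/-- The matrix of the Weyl element. -/
def wm (F : Type*) [Field F] : (Matrix (Fin 2) (Fin 2) F)ˣ where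
  val := !![0, -1; 1, 0]
  inv := !![0, 1; -1, 0]
  val_inv := by
    ext i j
    fin_cases i <;> fin_cases j <;> simp
  inv_val := by
    ext i j
    fin_cases i <;> fin_cases j <;> simp

/-- A normal subgroup of the product of the groups `GL₂(F_i)` with an element which is not scalar
in any component contains the elements of determinant one. -/
theorem mem_of_det_one (h2 : ∀ i, (2 : F i) ≠ 0) (h3 : ∀ i, (3 : F i) ≠ 0)
    (K : Subgroup (∀ i, (Matrix (Fin 2) (Fin 2) (F i))ˣ)) [hK : K.Normal]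
    {z : ∀ i, (Matrix (Fin 2) (Fin 2) (F i))ˣ} (hzK : z ∈ K)
    (hz : ∀ i, ¬ ((z i).val 0 1 = 0 ∧ (z i).val 1 0 = 0 ∧ (z i).val 0 0 = (z i).val 1 1))
    {y : ∀ i, (Matrix (Fin 2) (Fin 2) (F i))ˣ} (hy : ∀ i, (y i).val.det = 1) : y ∈ K := by
  choose P hP using fun i => exists_comm (h2 i) (hz i)
  have hc : P⁻¹ * z * P ∈ K := by
    have := hK.conj_mem z hzK P⁻¹
    rwa [inv_inv] at this
  set D : ∀ i, (Matrix (Fin 2) (Fin 2) (F i))ˣ := fun i => dg (h2 i) with hD
  have hg : (D * (P⁻¹ * z * P) * D⁻¹)⁻¹ * (P⁻¹ * z * P) ∈ K :=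
    K.mul_mem (K.inv_mem (hK.conj_mem _ hc D)) hc
  have h01 : ∀ x : ∀ i, F i, fel x ∈ K := by
    intro x
    have e : fel x = ((D * (P⁻¹ * z * P) * D⁻¹)⁻¹ * (P⁻¹ * z * P)) * (fel (fun i => x i / 3) *
        ((D * (P⁻¹ * z * P) * D⁻¹)⁻¹ * (P⁻¹ * z * P))⁻¹ * (fel (fun i => x i / 3))⁻¹) := by
      funext i
      have h4 := hP i (x i / 3)
      rw [mul_div_cancel₀ _ (h3 i)] at h4
      simp only [mul_assoc] at h4 ⊢
      exact h4
    rw [e]
    exact K.mul_mem hg (hK.conj_mem _ (K.inv_mem hg) _)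
  have h10 : ∀ x : ∀ i, F i, fel' x ∈ K := by
    intro x
    have e : fel' x = (fun i => wm (F i)) * fel (fun i => - x i) * (fun i => wm (F i))⁻¹ := by
      funext i
      apply Units.ext
      change (el (1 : Fin 2) 0 (by decide) (x i)).val = (wm (F i)).val *
        (el (0 : Fin 2) 1 (by decide) (- x i)).val * !![0, 1; -1, 0]
      have e1 : (wm (F i)).val = !![0, -1; 1, 0] := rfl
      rw [el10_val, el01_val, e1]
      ext k l
      fin_cases k <;> fin_cases l <;> simp [Matrix.mul_apply, Fin.sum_univ_two]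
    rw [e]
    exact hK.conj_mem _ (h01 _) _
  choose x₁ x₂ x₃ x₄ hx using fun i => exists_el (hy i)
  have e : y = fel x₁ * fel' x₂ * fel x₃ * fel' x₄ := funext hx
  rw [e]
  exact K.mul_mem (K.mul_mem (K.mul_mem (h01 _) (h10 _)) (h01 _)) (h10 _)

end prod

/-- Scalar matrices. -/
def sc {F : Type*} [Field F] (s : Fˣ) : (Matrix (Fin 2) (Fin 2) F)ˣ :=
  Units.map (algebraMap F (Matrix (Fin 2) (Fin 2) F) : F →* _) s

theorem sc_val {F : Type*} [Field F] (s : Fˣ) : (sc s).val = !![(s : F), 0; 0, (s : F)] := by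
  change algebraMap F (Matrix (Fin 2) (Fin 2) F) (s : F) = _
  rw [Matrix.algebraMap_eq_diagonal]
  ext i j
  fin_cases i <;> fin_cases j <;> simp

/-- **Normal subgroups of the product of the groups `GL₂(𝔽_p)`.** -/
theorem normal_prod {I : Type*} {p : I → ℕ} [∀ i, Fact (p i).Prime] (hp : ∀ i, 5 ≤ p i)
    (K : Subgroup (∀ i, (Matrix (Fin 2) (Fin 2) (ZMod (p i)))ˣ)) [hK : K.Normal]
    (hs : ∀ s : ∀ i, (ZMod (p i))ˣ, (fun i => sc (s i)) ∈ K)
    (z : ∀ i, (Matrix (Fin 2) (Fin 2) (ZMod (p i)))ˣ) (hz : ∀ i, ¬ IsSquare (z i).val.det)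
    (hzK : ∀ e : I → Bool, (fun i => if e i then z i else 1) ∈ K) : K = ⊤ := by
  classical
  have h2 : ∀ i, (2 : ZMod (p i)) ≠ 0 := fun i h => by
    have h1 : ((2 : ℕ) : ZMod (p i)) = 0 := by exact_mod_cast h
    rw [ZMod.natCast_eq_zero_iff] at h1
    have := Nat.le_of_dvd (by norm_num) h1
    have := hp i
    omega
  have h3 : ∀ i, (3 : ZMod (p i)) ≠ 0 := fun i h => by
    have h1 : ((3 : ℕ) : ZMod (p i)) = 0 := by exact_mod_cast h
    rw [ZMod.natCast_eq_zero_iff] at h1
    have := Nat.le_of_dvd (by norm_num) h1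
    have := hp i
    omega
  have hzK' : z ∈ K := by
    have := hzK fun _ => true
    simpa using this
  have hns : ∀ i, ¬ ((z i).val 0 1 = 0 ∧ (z i).val 1 0 = 0 ∧ (z i).val 0 0 = (z i).val 1 1) := by
    rintro i ⟨h4, h5, h6⟩
    apply hz i
    rw [Matrix.det_fin_two, h4, h5, h6]
    exact ⟨(z i).val 1 1, by ring⟩
  rw [eq_top_iff]
  rintro x -
  -- the product of two non-squares is a square
  have key : ∀ i, ∃ (e : Bool) (s : (ZMod (p i))ˣ), (x i).val.det =
      (sc s).val.det * (if e then z i else 1 : (Matrix (Fin 2) (Fin 2) (ZMod (p i)))ˣ).val.det := by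
    intro i
    have hdx : (x i).val.det ≠ 0 := ((Matrix.isUnit_iff_isUnit_det _).mp (x i).isUnit).ne_zero
    have hdz : (z i).val.det ≠ 0 := ((Matrix.isUnit_iff_isUnit_det _).mp (z i).isUnit).ne_zero
    have hsc : ∀ s : (ZMod (p i))ˣ, (sc s).val.det = s * s := by
      intro s
      rw [sc_val, Matrix.det_fin_two_of]
      ring
    by_cases h : IsSquare (x i).val.det
    · obtain ⟨s, hs'⟩ := h
      have hs0 : s ≠ 0 := by
        rintro rfl
        rw [mul_zero] at hs'
        exact hdx hs'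
      refine ⟨false, Units.mk0 s hs0, ?_⟩
      rw [hsc, Units.val_mk0, hs']
      simp
    · have h1 : IsSquare ((x i).val.det * ((z i).val.det)⁻¹) := by
        rw [← quadraticChar_one_iff_isSquare (mul_ne_zero hdx (inv_ne_zero hdz)), map_mul]
        have e1 := quadraticChar_neg_one_iff_not_isSquare.mpr h
        have e2 : quadraticChar (ZMod (p i)) ((z i).val.det)⁻¹ = -1 := by
          rw [quadraticChar_neg_one_iff_not_isSquare]
          intro h4
          apply hz i
          obtain ⟨t, ht⟩ := h4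
          refine ⟨t⁻¹, ?_⟩
          rw [← mul_inv, ← ht, inv_inv]
        rw [e1, e2]
        norm_num
      obtain ⟨s, hs'⟩ := h1
      have hs0 : s ≠ 0 := by
        rintro rfl
        rw [mul_zero] at hs'
        exact mul_ne_zero hdx (inv_ne_zero hdz) hs'
      refine ⟨true, Units.mk0 s hs0, ?_⟩
      rw [hsc, Units.val_mk0, ← hs']
      simp [hdz]
  choose e s hes using key
  set A : ∀ i, (Matrix (Fin 2) (Fin 2) (ZMod (p i)))ˣ := fun i => sc (s i) with hA
  set B : ∀ i, (Matrix (Fin 2) (Fin 2) (ZMod (p i)))ˣ := fun i => if e i then z i else 1 with hB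
  have hAK : A ∈ K := hs s
  have hBK : B ∈ K := hzK e
  have hy : ∀ i, ((B⁻¹ * A⁻¹ * x) i).val.det = 1 := by
    intro i
    have h4 : x i = A i * B i * ((B⁻¹ * A⁻¹ * x) i) := by
      have : x = A * B * (B⁻¹ * A⁻¹ * x) := by group
      exact congrFun this i
    have h5 := congrArg (fun u : (Matrix (Fin 2) (Fin 2) (ZMod (p i)))ˣ => u.val.det) h4
    simp only [Units.val_mul, Matrix.det_mul] at h5
    have hdx : (x i).val.det ≠ 0 := ((Matrix.isUnit_iff_isUnit_det _).mp (x i).isUnit).ne_zero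
    have h7 : (x i).val.det = (A i).val.det * (B i).val.det := hes i
    rw [← h7] at h5
    exact (mul_left_cancel₀ hdx ((mul_one _).trans h5)).symm
  have hyK := mem_of_det_one h2 h3 K hzK' hns hy
  have e1 : x = A * B * (B⁻¹ * A⁻¹ * x) := by group
  rw [e1]
  exact K.mul_mem (K.mul_mem hAK hBK) hyK

end Pool.Agent.Helper24.BWR
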